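import Pool.Agent.H83.Ord.Main

set_option autoImplicit false

namespace Pool.Agent.H83.Kept.InfinitelyManyFail

open Pool.Agent.H83.Ord

/-- Let `K` be a class of groups with `LI ⊆ K ⊆ RO` (for instance the class of right-orderable
groups or the class of locally indicable groups), let `C` be a class of torsion-free groups closed
under subgroups and finite direct powers (for instance the class of all torsion-free groups) and
let `S` be a set of quasi-identities defining `K` in `C`. Then every abelian-by-nilpotent group of
`C` outside `K` violates infinitely many members of `S`. -/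
theorem result (K : GroupClass)
    (hK1 : ∀ (G : Type) [Group G], LocallyIndicable G → K G)
    (hK2 : ∀ (G : Type) [Group G], K G → RightOrderable G)
    (C : GroupClass)
    (hCsub : ∀ (G : Type) [Group G], C G → ∀ H : Subgroup G, C H)
    (hCpow : ∀ (G : Type) [Group G], C G → ∀ ι : Type, Finite ι → C (ι → G))
    (hCtf : ∀ (G : Type) [Group G], C G → TorsionFree G)
    (S : Set QuasiIdentity) (hS : Defines S K C)
    (P : Type) [Group P] (hP : C P) (hPab : AbelianByNilpotent P) (hPK : ¬ K P) :
    {σ ∈ S | ¬ σ.HoldsIn P}.Infinite :=
  infinite_failing K hK1 hK2 C hCsub hCpow hCtf S hS P hP hPab hPK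

end Pool.Agent.H83.Kept.InfinitelyManyFail
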