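import Pool.Agent.H83.Ord.Metab

set_option autoImplicit false

namespace Pool.Agent.H83.Kept.TorsionFreeMetabelianCase

open Pool.Agent.H83.Ord

/-- Let `K` be a class of groups with `LI ⊆ K ⊆ RO` (for instance the class of right-orderable
groups or the class of locally indicable groups). No independent set of quasi-identities defines
`K` in the class of torsion-free metabelian groups. -/
theorem result (K : GroupClass)
    (hK1 : ∀ (G : Type) [Group G], LocallyIndicable G → K G)
    (hK2 : ∀ (G : Type) [Group G], K G → RightOrderable G)
    (S : Set QuasiIdentity) (hS : Defines S K TorsionFreeMetabelian) :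
    ¬ IndependentIn S TorsionFreeMetabelian :=
  metabelian_not_independent K hK1 hK2 S hS

end Pool.Agent.H83.Kept.TorsionFreeMetabelianCase
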